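import Pool.Agent.R444.PB.Comp

/-!
# The power-bias fixed point equation: definitions and first properties
-/

set_option autoImplicit false

open MeasureTheory Set Filter Topology

namespace Pool.Agent.R444.PB

/-- `∫ x^k dμ`. -/
noncomputable def mom (μ : Measure ℝ) (k : ℕ) : ENNReal := ∫⁻ x, ENNReal.ofReal (x ^ k) ∂μ

/-- The `k`-power-biased law `(x^k / ∫ x^k dμ) μ`. -/
noncomputable def powerBiased (μ : Measure ℝ) (k : ℕ) : Measure ℝ :=
  (mom μ k)⁻¹ • μ.withDensity (fun x => ENNReal.ofReal (x ^ k))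

/-- The `ψ`-power-bias distribution `∑_k ψ_k μ_k`. -/
noncomputable def psiBiased (ψ : ℕ → ℝ) (μ : Measure ℝ) : Measure ℝ :=
  Measure.sum (fun k => ENNReal.ofReal (ψ k) • powerBiased μ k)

/-- The `Beta(w, 1)` law: density `w v^{w-1}` on `(0, 1)`. -/
noncomputable def betaLaw (w : ℝ) : Measure ℝ :=
  (volume.restrict (Ioo (0 : ℝ) 1)).withDensity (fun v => ENNReal.ofReal (w * v ^ (w - 1)))

/-- `μ` is the law of a positive random variable `X` with `E X^k < ∞` whenever `ψ_k > 0`, and `X` has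
the law of `V_w X^(ψ)`, with `V_w ~ Beta(w, 1)` independent of `X^(ψ)`. -/
structure IsSolution (w : ℝ) (ψ : ℕ → ℝ) (μ : Measure ℝ) : Prop where
  prob : IsProbabilityMeasure μ
  pos : μ (Iic 0) = 0
  moment : ∀ k, 0 < ψ k → mom μ k < ⊤
  fixed : μ = ((betaLaw w).prod (psiBiased ψ μ)).map (fun z => z.1 * z.2)

lemma betaLaw_Iic {w : ℝ} (hw : 0 < w) {c : ℝ} (hc : 0 ≤ c) :
    betaLaw w (Iic c) = ENNReal.ofReal ((min c 1) ^ w) := by
  have h0 : (Iic c ∩ Ioo (0 : ℝ) 1 : Set ℝ) =ᵐ[volume] (Ioc (0 : ℝ) (min c 1) : Set ℝ) := by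
    rcases lt_or_ge c 1 with h | h
    · have : Iic c ∩ Ioo (0 : ℝ) 1 = Ioc 0 (min c 1) := by
        rw [min_eq_left h.le]
        ext x
        constructor
        · rintro ⟨h1, h2, h3⟩
          exact ⟨h2, h1⟩
        · rintro ⟨h1, h2⟩
          exact ⟨h2, h1, lt_of_le_of_lt h2 h⟩
      exact Filter.EventuallyEq.of_eq this
    · have : Iic c ∩ Ioo (0 : ℝ) 1 = Ioo 0 1 := by
        apply inter_eq_right.2
        intro x hx
        exact (hx.2.le).trans h
      rw [this, min_eq_right h]
      exact Ioo_ae_eq_Ioc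
  have hm : 0 ≤ min c 1 := le_min hc zero_le_one
  rw [betaLaw, withDensity_apply _ measurableSet_Iic, Measure.restrict_restrict measurableSet_Iic,
    Measure.restrict_congr_set h0]
  have hint : IntervalIntegrable (fun v : ℝ => w * v ^ (w - 1)) volume 0 (min c 1) :=
    (intervalIntegral.intervalIntegrable_rpow' (by linarith)).const_mul w
  rw [← ofReal_integral_eq_lintegral_ofReal]
  · rw [← intervalIntegral.integral_of_le hm, intervalIntegral.integral_const_mul,
      integral_rpow (Or.inl (by linarith)), sub_add_cancel, Real.zero_rpow hw.ne', sub_zero]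
    congr 1
    field_simp
  · exact (intervalIntegrable_iff_integrableOn_Ioc_of_le hm).1 hint
  · filter_upwards [ae_restrict_mem measurableSet_Ioc] with v hv
    have := hv.1
    show 0 ≤ w * v ^ (w - 1)
    positivity

lemma betaLaw_prob {w : ℝ} (hw : 0 < w) : IsProbabilityMeasure (betaLaw w) := by
  constructor
  have h1 : betaLaw w (Iic 1) = 1 := by
    rw [betaLaw_Iic hw zero_le_one, min_self, Real.one_rpow, ENNReal.ofReal_one]
  have h2 : betaLaw w (Iic 1)ᶜ = 0 := by
    rw [betaLaw, withDensity_apply _ measurableSet_Iic.compl,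
      Measure.restrict_restrict measurableSet_Iic.compl]
    have : (Iic (1 : ℝ))ᶜ ∩ Ioo 0 1 = ∅ := by
      ext x
      simp only [mem_inter_iff, mem_compl_iff, mem_Iic, mem_Ioo, mem_empty_iff_false, iff_false,
        not_and]
      intro h1 h2 h3
      exact h1 h3.le
    rw [this]
    simp
  rw [← union_compl_self (Iic (1 : ℝ)), measure_union disjoint_compl_right measurableSet_Iic.compl,
    h1, h2, add_zero]

lemma betaLaw_singleton (w x : ℝ) : betaLaw w {x} = 0 := by
  apply withDensity_absolutelyContinuous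
  rw [Measure.restrict_apply (measurableSet_singleton x)]
  refine le_antisymm ((measure_mono inter_subset_left).trans ?_) zero_le
  simp

section

variable {w : ℝ} {ψ : ℕ → ℝ} {μ : Measure ℝ}

lemma IsSolution.ae_pos (h : IsSolution w ψ μ) : ∀ᵐ x ∂μ, 0 < x := by
  rw [ae_iff]
  have : {x : ℝ | ¬ 0 < x} = Iic 0 := by
    ext x
    simp
  rw [this]
  exact h.pos

lemma IsSolution.mom_pos (h : IsSolution w ψ μ) (k : ℕ) : mom μ k ≠ 0 := by
  intro h0
  rw [mom, lintegral_eq_zero_iff (by fun_prop)] at h0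
  have hp := h.prob
  have h1 : ∀ᵐ x ∂μ, False := by
    filter_upwards [h0, h.ae_pos] with x hx1 hx2
    have h2 : ENNReal.ofReal (x ^ k) = 0 := hx1
    rw [ENNReal.ofReal_eq_zero] at h2
    have : 0 < x ^ k := by positivity
    linarith
  rw [ae_iff] at h1
  simp at h1

lemma IsSolution.powerBiased_prob (h : IsSolution w ψ μ) {k : ℕ} (hk : 0 < ψ k) :
    IsProbabilityMeasure (powerBiased μ k) := by
  constructor
  rw [powerBiased, Measure.smul_apply, withDensity_apply _ MeasurableSet.univ,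
    Measure.restrict_univ, smul_eq_mul]
  exact ENNReal.inv_mul_cancel (h.mom_pos k) (h.moment k hk).ne

lemma psiBiased_apply (A : Set ℝ) (hA : MeasurableSet A) :
    psiBiased ψ μ A = ∑' k, ENNReal.ofReal (ψ k) * powerBiased μ k A := by
  rw [psiBiased, Measure.sum_apply _ hA]
  rfl

lemma IsSolution.psiBiased_prob (h : IsSolution w ψ μ) (hψ : ∀ k, 0 ≤ ψ k) (hψ1 : HasSum ψ 1) :
    IsProbabilityMeasure (psiBiased ψ μ) := by
  constructor
  rw [psiBiased_apply _ MeasurableSet.univ]
  have h1 : ∀ k, ENNReal.ofReal (ψ k) * powerBiased μ k univ = ENNReal.ofReal (ψ k) := by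
    intro k
    rcases (hψ k).eq_or_lt with h0 | h0
    · rw [← h0]
      simp
    · haveI := h.powerBiased_prob h0
      rw [measure_univ, mul_one]
  rw [tsum_congr h1, ← ENNReal.ofReal_tsum_of_nonneg hψ hψ1.summable, hψ1.tsum_eq,
    ENNReal.ofReal_one]

lemma psiBiased_ac : psiBiased ψ μ ≪ μ := by
  intro A hA
  obtain ⟨B, hAB, hBm, hB0⟩ := exists_measurable_superset_of_null hA
  refine measure_mono_null hAB ?_
  rw [psiBiased_apply _ hBm]
  apply ENNReal.tsum_eq_zero.2
  intro k
  rw [powerBiased, Measure.smul_apply, withDensity_absolutelyContinuous μ _ hB0, smul_zero,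
    mul_zero]

lemma IsSolution.singleton (h : IsSolution w ψ μ) (hw : 0 < w) (hψ : ∀ k, 0 ≤ ψ k)
    (hψ1 : HasSum ψ 1) (x : ℝ) : μ {x} = 0 := by
  haveI := h.psiBiased_prob hψ hψ1
  haveI := betaLaw_prob hw
  rcases le_or_gt x 0 with h0 | h0
  · exact measure_mono_null (by simpa using h0) h.pos
  · rw [h.fixed, Measure.map_apply (by fun_prop) (measurableSet_singleton x),
      Measure.prod_apply_symm ((by fun_prop : Measurable fun z : ℝ × ℝ => z.1 * z.2)
        (measurableSet_singleton x)), lintegral_eq_zero_iff' ?_]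
    · refine Eventually.of_forall fun y => ?_
      show betaLaw w ((fun v => (v, y)) ⁻¹' ((fun z : ℝ × ℝ => z.1 * z.2) ⁻¹' {x})) = 0
      rcases eq_or_ne y 0 with hy | hy
      · have : ((fun v => (v, y)) ⁻¹' ((fun z : ℝ × ℝ => z.1 * z.2) ⁻¹' {x})) = ∅ := by
          ext v
          simp only [mem_preimage, mem_singleton_iff, mem_empty_iff_false, iff_false]
          rw [hy, mul_zero]
          exact h0.ne
        rw [this, measure_empty]
      · refine measure_mono_null ?_ (betaLaw_singleton w (x / y))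
        intro v hv
        simp only [mem_preimage, mem_singleton_iff] at hv ⊢
        rw [← hv]
        field_simp
    · exact (measurable_measure_prodMk_right ((by fun_prop : Measurable fun z : ℝ × ℝ => z.1 * z.2)
        (measurableSet_singleton x))).aemeasurable

/-- `F(x) = ∫ min(1, (x/y)^w) dκ(y)`. -/
lemma IsSolution.Iic_eq (h : IsSolution w ψ μ) (hw : 0 < w) (hψ : ∀ k, 0 ≤ ψ k)
    (hψ1 : HasSum ψ 1) {x : ℝ} (hx : 0 < x) :
    μ (Iic x) = ∫⁻ y, ENNReal.ofReal ((min (x / y) 1) ^ w) ∂(psiBiased ψ μ) := by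
  haveI := h.psiBiased_prob hψ hψ1
  haveI := betaLaw_prob hw
  have hfx : μ (Iic x) = ((betaLaw w).prod (psiBiased ψ μ)).map (fun z => z.1 * z.2) (Iic x) :=
    congrArg (fun m : Measure ℝ => m (Iic x)) h.fixed
  rw [hfx, Measure.map_apply (by fun_prop) measurableSet_Iic,
    Measure.prod_apply_symm ((by fun_prop : Measurable fun z : ℝ × ℝ => z.1 * z.2)
        measurableSet_Iic)]
  apply lintegral_congr_ae
  filter_upwards [psiBiased_ac.ae_le h.ae_pos] with y hy
  rw [← betaLaw_Iic hw (div_pos hx hy).le]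
  congr 1
  ext v
  simp only [mem_preimage, mem_Iic]
  rw [le_div_iff₀ hy]

lemma Fd_eq (h : IsSolution w ψ μ) (hw : 0 < w) (hψ : ∀ k, 0 ≤ ψ k)
    (hψ1 : HasSum ψ 1) {x : ℝ} (hx : 0 < x) :
    Fd μ x = ∫ y, (min (x / y) 1) ^ w ∂(psiBiased ψ μ) := by
  rw [Fd, Measure.real, h.Iic_eq hw hψ hψ1 hx, integral_eq_lintegral_of_nonneg_ae]
  · filter_upwards [psiBiased_ac.ae_le h.ae_pos] with y hy
    exact Real.rpow_nonneg (le_min (div_pos hx hy).le zero_le_one) _
  · exact (by fun_prop : Measurable fun y : ℝ => (min (x / y) 1) ^ w).aestronglyMeasurable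

/-- The two-sided estimate which is all that is needed from the equation. -/
lemma IsSolution.sandwich (h : IsSolution w ψ μ) (hw : 0 < w) (hψ : ∀ k, 0 ≤ ψ k)
    (hψ1 : HasSum ψ 1) {x b : ℝ} (hx : 0 < x) (hxb : x < b) :
    (x ^ (-w) - b ^ (-w)) * Fd (psiBiased ψ μ) x ≤ x ^ (-w) * Fd μ x - b ^ (-w) * Fd μ b ∧
    x ^ (-w) * Fd μ x - b ^ (-w) * Fd μ b ≤ (x ^ (-w) - b ^ (-w)) * Fd (psiBiased ψ μ) b := by
  haveI := h.psiBiased_prob hψ hψ1
  set κ := psiBiased ψ μ with hκ
  have hb : 0 < b := hx.trans hxb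
  have hae : ∀ᵐ y ∂κ, 0 < y := psiBiased_ac.ae_le h.ae_pos
  have hint : ∀ c : ℝ, 0 < c → Integrable (fun y => (min (c / y) 1) ^ w) κ := by
    intro c hc
    refine Integrable.mono' (integrable_const (1 : ℝ))
      (by fun_prop : Measurable fun y : ℝ => (min (c / y) 1) ^ w).aestronglyMeasurable ?_
    filter_upwards [hae] with y hy
    have h1 : 0 ≤ min (c / y) 1 := le_min (div_pos hc hy).le zero_le_one
    rw [Real.norm_of_nonneg (Real.rpow_nonneg h1 _)]
    exact Real.rpow_le_one h1 (min_le_right _ _) hw.le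
  have heq : x ^ (-w) * Fd μ x - b ^ (-w) * Fd μ b
      = ∫ y, (x ^ (-w) * (min (x / y) 1) ^ w - b ^ (-w) * (min (b / y) 1) ^ w) ∂κ := by
    rw [integral_sub ((hint x hx).const_mul _) ((hint b hb).const_mul _), integral_const_mul,
      integral_const_mul, Fd_eq h hw hψ hψ1 hx, Fd_eq h hw hψ hψ1 hb]
  have hval : ∀ c : ℝ, 0 < c → ∀ y : ℝ, 0 < y → c ^ (-w) * (min (c / y) 1) ^ w
      = (max c y) ^ (-w) := by
    intro c hc y hy
    rcases le_total y c with h1 | h1
    · rw [min_eq_right ((one_le_div hy).2 h1), max_eq_left h1, Real.one_rpow, mul_one]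
    · rw [min_eq_left ((div_le_one hy).2 h1), max_eq_right h1, Real.div_rpow hc.le hy.le,
        Real.rpow_neg hc.le, Real.rpow_neg hy.le]
      have : c ^ w ≠ 0 := (Real.rpow_pos_of_pos hc w).ne'
      field_simp
  have hanti : ∀ s t : ℝ, 0 < s → s ≤ t → t ^ (-w) ≤ s ^ (-w) := fun s t hs hst =>
    Real.rpow_le_rpow_of_nonpos hs hst (by linarith)
  have hc0 : 0 ≤ x ^ (-w) - b ^ (-w) := by
    have := hanti x b hx hxb.le
    linarith
  have hind : ∀ c : ℝ, ∫ y, (x ^ (-w) - b ^ (-w)) * (Iic c).indicator (1 : ℝ → ℝ) y ∂κ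
      = (x ^ (-w) - b ^ (-w)) * Fd κ c := by
    intro c
    rw [integral_const_mul, integral_indicator_one measurableSet_Iic]
    rfl
  have hii : ∀ c : ℝ, Integrable (fun y => (x ^ (-w) - b ^ (-w))
      * (Iic c).indicator (1 : ℝ → ℝ) y) κ := fun c =>
    ((integrable_const (1 : ℝ)).indicator measurableSet_Iic).const_mul _
  have hdi : Integrable (fun y => x ^ (-w) * (min (x / y) 1) ^ w
      - b ^ (-w) * (min (b / y) 1) ^ w) κ := ((hint x hx).const_mul _).sub ((hint b hb).const_mul _)
  rw [heq, ← hind x, ← hind b]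
  constructor
  · apply integral_mono_ae (hii x) hdi
    filter_upwards [hae] with y hy
    rw [hval x hx y hy, hval b hb y hy]
    rcases le_or_gt y x with h1 | h1
    · rw [indicator_of_mem (show y ∈ Iic x from h1), max_eq_left h1, max_eq_left (h1.trans hxb.le)]
      simp
    · rw [indicator_of_notMem (show y ∉ Iic x from not_le.2 h1), mul_zero]
      have := hanti (max x y) (max b y) (lt_max_of_lt_left hx) (max_le_max hxb.le le_rfl)
      linarith
  · apply integral_mono_ae hdi (hii b)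
    filter_upwards [hae] with y hy
    rw [hval x hx y hy, hval b hb y hy]
    rcases le_or_gt y b with h1 | h1
    · rw [indicator_of_mem (show y ∈ Iic b from h1), max_eq_left h1]
      have := hanti x (max x y) hx (le_max_left _ _)
      simp only [Pi.one_apply, mul_one]
      linarith
    · rw [indicator_of_notMem (show y ∉ Iic b from not_le.2 h1), mul_zero, max_eq_right h1.le,
        max_eq_right (hxb.le.trans h1.le)]
      linarith

end

end Pool.Agent.R444.PB
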