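import Mathlib

/-!
# Comparison of two atomless measures on the set where one distribution function exceeds the other
-/

set_option autoImplicit false

open MeasureTheory Set Filter Topology

namespace Pool.Agent.R444.PB

/-- The distribution function. -/
noncomputable def Fd (μ : Measure ℝ) (x : ℝ) : ℝ := μ.real (Iic x)

lemma continuous_Fd (μ : Measure ℝ) [IsFiniteMeasure μ] [NullSingletonClass μ] : Continuous (Fd μ) := by
  rw [continuous_iff_continuousAt]
  intro x0
  have h1 : Fd μ = fun x => ∫ y, (Iic x).indicator (1 : ℝ → ℝ) y ∂μ := by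
    funext x
    rw [integral_indicator_one measurableSet_Iic]
    rfl
  rw [h1]
  apply continuousAt_of_dominated (bound := fun _ => (1 : ℝ))
  · refine Eventually.of_forall fun x => ?_
    exact (measurable_one.indicator measurableSet_Iic).aestronglyMeasurable
  · refine Eventually.of_forall fun x => Eventually.of_forall fun y => ?_
    rw [indicator_apply]
    split_ifs <;> simp
  · exact integrable_const _
  · have h0 : ∀ᵐ y ∂μ, y ≠ x0 := by
      rw [ae_iff]
      simp
    filter_upwards [h0] with y hy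
    rcases lt_or_gt_of_ne hy with h | h
    · have : (fun x : ℝ => (Iic x).indicator (1 : ℝ → ℝ) y) =ᶠ[𝓝 x0] fun _ => 1 := by
        filter_upwards [lt_mem_nhds h] with x hx
        rw [indicator_of_mem (show y ∈ Iic x from le_of_lt hx)]
        rfl
      exact (continuousAt_congr this).2 continuousAt_const
    · have : (fun x : ℝ => (Iic x).indicator (1 : ℝ → ℝ) y) =ᶠ[𝓝 x0] fun _ => 0 := by
        filter_upwards [gt_mem_nhds h] with x hx
        rw [indicator_of_notMem (show y ∉ Iic x from not_le.2 hx)]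
      exact (continuousAt_congr this).2 continuousAt_const

lemma real_Ioo (μ : Measure ℝ) [IsFiniteMeasure μ] [NullSingletonClass μ] {a b : ℝ} (hab : a ≤ b) :
    μ.real (Ioo a b) = Fd μ b - Fd μ a := by
  have h1 : μ.real (Ioo a b) = μ.real (Ioc a b) := by
    rw [Measure.real, Measure.real, measure_congr Ioo_ae_eq_Ioc]
  rw [h1]
  have h2 : Iic b = Iic a ∪ Ioc a b := (Iic_union_Ioc_eq_Iic hab).symm
  have h3 : μ.real (Iic b) = μ.real (Iic a) + μ.real (Ioc a b) := by
    rw [h2, measureReal_union (by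
      rw [Set.disjoint_left]
      intro x hx hx'
      exact not_lt.2 hx hx'.1) measurableSet_Ioc]
  unfold Fd
  linarith

lemma real_Ioi (μ : Measure ℝ) [IsProbabilityMeasure μ] (a : ℝ) : μ.real (Ioi a) = 1 - Fd μ a := by
  have : Ioi a = (Iic a)ᶜ := compl_Iic.symm
  rw [this, probReal_compl_eq_one_sub measurableSet_Iic]
  rfl

/-- The shape of the components of an open set that is bounded below. -/
lemma comp_shape {U : Set ℝ} (hU : IsOpen U) {s : ℝ} (hUs : U ⊆ Ioi s) {x : ℝ} (hx : x ∈ U) :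
    (∃ a b, s ≤ a ∧ a < b ∧ a ∉ U ∧ b ∉ U ∧ connectedComponentIn U x = Ioo a b) ∨
    ∃ a, s ≤ a ∧ a ∉ U ∧ connectedComponentIn U x = Ioi a := by
  set I := connectedComponentIn U x with hI
  have hIopen : IsOpen I := hU.connectedComponentIn
  have hIord : OrdConnected I := isPreconnected_connectedComponentIn.ordConnected
  have hxI : x ∈ I := mem_connectedComponentIn hx
  have hIU : I ⊆ U := connectedComponentIn_subset U x
  have hbb : BddBelow I := ⟨s, fun y hy => le_of_lt (hUs (hIU hy))⟩
  have hne : I.Nonempty := ⟨x, hxI⟩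
  set a := sInf I with ha
  have hsa : s ≤ a := le_csInf hne fun y hy => le_of_lt (hUs (hIU hy))
  have haI : a ∉ I := by
    intro h
    obtain ⟨ε, hε, hb⟩ := Metric.isOpen_iff.1 hIopen a h
    have h1 : a - ε / 2 ∈ I := hb (by
      rw [Metric.mem_ball, Real.dist_eq, abs_of_neg (by linarith)]
      linarith)
    have := csInf_le hbb h1
    linarith
  have hax : a < x := lt_of_le_of_ne (csInf_le hbb hxI) (fun h => haI (h ▸ hxI))
  have hlow : ∀ y, a < y → y ≤ x → y ∈ I := by
    intro y h1 h2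
    obtain ⟨z, hz, hzy⟩ := exists_lt_of_csInf_lt hne h1
    exact hIord.out hz hxI ⟨hzy.le, h2⟩
  have haU : a ∉ U := by
    intro h
    have h1 : Icc a x ⊆ U := by
      rintro y ⟨hy1, hy2⟩
      rcases hy1.eq_or_lt with h' | h'
      · rw [← h']; exact h
      · exact hIU (hlow y h' hy2)
    exact haI (isPreconnected_Icc.subset_connectedComponentIn ⟨hax.le, le_refl x⟩ h1
      ⟨le_refl a, hax.le⟩)
  by_cases hba : BddAbove I
  · left
    set b := sSup I with hb
    have hbI : b ∉ I := by
      intro h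
      obtain ⟨ε, hε, hb'⟩ := Metric.isOpen_iff.1 hIopen b h
      have h1 : b + ε / 2 ∈ I := hb' (by
        rw [Metric.mem_ball, Real.dist_eq, abs_of_pos (by linarith)]
        linarith)
      have := le_csSup hba h1
      linarith
    have hxb : x < b := lt_of_le_of_ne (le_csSup hba hxI) (fun h => hbI (h ▸ hxI))
    have hup : ∀ y, y < b → x ≤ y → y ∈ I := by
      intro y h1 h2
      obtain ⟨z, hz, hzy⟩ := exists_lt_of_lt_csSup hne h1
      exact hIord.out hxI hz ⟨h2, hzy.le⟩
    have hbU : b ∉ U := by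
      intro h
      have h1 : Icc x b ⊆ U := by
        rintro y ⟨hy1, hy2⟩
        rcases hy2.eq_or_lt with h' | h'
        · rw [h']; exact h
        · exact hIU (hup y h' hy1)
      exact hbI (isPreconnected_Icc.subset_connectedComponentIn ⟨le_refl x, hxb.le⟩ h1
        ⟨hxb.le, le_refl b⟩)
    refine ⟨a, b, hsa, hax.trans hxb, haU, hbU, ?_⟩
    ext y
    constructor
    · intro hy
      refine ⟨lt_of_le_of_ne (csInf_le hbb hy) (fun h => haI (h ▸ hy)),
        lt_of_le_of_ne (le_csSup hba hy) (fun h => hbI (h ▸ hy))⟩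
    · rintro ⟨h1, h2⟩
      rcases le_total y x with h | h
      · exact hlow y h1 h
      · exact hup y h2 h
  · right
    refine ⟨a, hsa, haU, ?_⟩
    ext y
    constructor
    · intro hy
      exact lt_of_le_of_ne (csInf_le hbb hy) (fun h => haI (by rw [ha, h]; exact hy))
    · intro h1
      rcases le_total y x with h | h
      · exact hlow y h1 h
      · obtain ⟨z, hz, hzy⟩ := not_bddAbove_iff.1 hba y
        exact hIord.out hxI hz ⟨h, hzy.le⟩

/-- It suffices to compare two measures on the components of an open set. -/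
lemma comp_le {μ ν : Measure ℝ} {U : Set ℝ} (hU : IsOpen U) {s : ℝ} (hUs : U ⊆ Ioi s)
    (h1 : ∀ a b, s ≤ a → a < b → Ioo a b ⊆ U → a ∉ U → b ∉ U → μ (Ioo a b) ≤ ν (Ioo a b))
    (h2 : ∀ a, s ≤ a → Ioi a ⊆ U → a ∉ U → μ (Ioi a) ≤ ν (Ioi a)) : μ U ≤ ν U := by
  set S : Set (Set ℝ) := {I | ∃ x ∈ U, I = connectedComponentIn U x} with hS
  have hSU : ⋃₀ S = U := by
    ext y
    constructor
    · rintro ⟨I, ⟨x, hx, rfl⟩, hy⟩
      exact connectedComponentIn_subset U x hy
    · intro hy
      exact ⟨_, ⟨y, hy, rfl⟩, mem_connectedComponentIn hy⟩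
  have hopen : ∀ I ∈ S, IsOpen I := by
    rintro I ⟨x, hx, rfl⟩
    exact hU.connectedComponentIn
  have hdisj : S.Pairwise Disjoint := by
    rintro I ⟨x, hx, rfl⟩ J ⟨y, hy, rfl⟩ hne
    rw [Set.disjoint_left]
    intro z hz1 hz2
    exact hne ((connectedComponentIn_eq hz1).trans (connectedComponentIn_eq hz2).symm)
  have hcount : S.Countable := by
    apply Set.PairwiseDisjoint.countable_of_isOpen (s := id)
    · intro I hI J hJ hne
      exact hdisj hI hJ hne
    · exact hopen
    · rintro I ⟨x, hx, rfl⟩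
      exact ⟨x, mem_connectedComponentIn hx⟩
  rw [← hSU, measure_sUnion hcount hdisj fun I hI => (hopen I hI).measurableSet,
    measure_sUnion hcount hdisj fun I hI => (hopen I hI).measurableSet]
  apply ENNReal.tsum_le_tsum
  rintro ⟨I, x, hx, rfl⟩
  rcases comp_shape hU hUs hx with ⟨a, b, hsa, hab, haU, hbU, hI⟩ | ⟨a, hsa, haU, hI⟩
  · show μ (connectedComponentIn U x) ≤ ν (connectedComponentIn U x)
    have hsub := connectedComponentIn_subset U x
    rw [hI] at hsub ⊢
    exact h1 a b hsa hab hsub haU hbU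
  · show μ (connectedComponentIn U x) ≤ ν (connectedComponentIn U x)
    have hsub := connectedComponentIn_subset U x
    rw [hI] at hsub ⊢
    exact h2 a hsa hsub haU

lemma le_of_real_le {μ ν : Measure ℝ} [IsFiniteMeasure μ] [IsFiniteMeasure ν] {A B : Set ℝ}
    (h : μ.real A ≤ ν.real B) : μ A ≤ ν B :=
  (ENNReal.toReal_le_toReal (measure_ne_top μ A) (measure_ne_top ν B)).1 h

section

variable (μ ν : Measure ℝ) [IsProbabilityMeasure μ] [IsProbabilityMeasure ν] [NullSingletonClass μ] [NullSingletonClass ν]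

/-- The set where the distribution function of `μ` exceeds that of `ν`. -/
def Up : Set ℝ := {x | 0 < Fd μ x - Fd ν x}

lemma isOpen_Up : IsOpen (Up μ ν) :=
  isOpen_lt continuous_const ((continuous_Fd μ).sub (continuous_Fd ν))

/-- A boundary point to the right of points of `Up`. -/
lemma nonneg_right {a b : ℝ} (hab : a < b) (h : Ioo a b ⊆ Up μ ν) : 0 ≤ Fd μ b - Fd ν b := by
  have hc : Continuous fun x => Fd μ x - Fd ν x := (continuous_Fd μ).sub (continuous_Fd ν)
  have hcl : b ∈ closure (Ioo a b) := by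
    rw [closure_Ioo hab.ne]
    exact ⟨hab.le, le_refl b⟩
  have hsub : closure (Ioo a b) ⊆ {x | 0 ≤ Fd μ x - Fd ν x} :=
    closure_minimal (fun x hx => by
      have h1 : 0 < Fd μ x - Fd ν x := h hx
      exact h1.le) (isClosed_le continuous_const hc)
  exact hsub hcl

lemma nonneg_left {a b : ℝ} (hab : a < b) (h : Ioo a b ⊆ Up μ ν) : 0 ≤ Fd μ a - Fd ν a := by
  have hc : Continuous fun x => Fd μ x - Fd ν x := (continuous_Fd μ).sub (continuous_Fd ν)
  have hcl : a ∈ closure (Ioo a b) := by
    rw [closure_Ioo hab.ne]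
    exact ⟨le_refl a, hab.le⟩
  have hsub : closure (Ioo a b) ⊆ {x | 0 ≤ Fd μ x - Fd ν x} :=
    closure_minimal (fun x hx => by
      have h1 : 0 < Fd μ x - Fd ν x := h hx
      exact h1.le) (isClosed_le continuous_const hc)
  exact hsub hcl

lemma tail_aux {s : ℝ} (hs : Fd μ s - Fd ν s ≤ 0) :
    μ (Up μ ν ∩ Ioi s) ≤ ν (Up μ ν ∩ Ioi s) := by
  apply comp_le ((isOpen_Up μ ν).inter isOpen_Ioi) (s := s) inter_subset_right
  · intro a b hsa hab hsub ha hb
    have hsub' : Ioo a b ⊆ Up μ ν := hsub.trans inter_subset_left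
    have ha0 : Fd μ a - Fd ν a ≤ 0 := by
      rcases hsa.eq_or_lt with h | h
      · rwa [← h]
      · by_contra hcon
        exact ha ⟨not_le.1 hcon, h⟩
    have hb0 : Fd μ b - Fd ν b ≤ 0 := by
      by_contra hcon
      exact hb ⟨not_le.1 hcon, lt_of_le_of_lt hsa hab⟩
    have ha1 := nonneg_left μ ν hab hsub'
    have hb1 := nonneg_right μ ν hab hsub'
    apply le_of_real_le
    rw [real_Ioo μ hab.le, real_Ioo ν hab.le]
    linarith
  · intro a hsa hsub ha
    have hsub' : Ioo a (a + 1) ⊆ Up μ ν := fun x hx => (hsub hx.1).1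
    have ha1 := nonneg_left μ ν (by linarith : a < a + 1) hsub'
    apply le_of_real_le
    rw [real_Ioi, real_Ioi]
    linarith

/-- `μ(U ∩ (s, ∞)) + (F - G)^+(s) ≤ ν(U ∩ (s, ∞))` for `U = {F > G}`. -/
lemma tail_le (s : ℝ) : μ (Up μ ν ∩ Ioi s) + ENNReal.ofReal (Fd μ s - Fd ν s)
    ≤ ν (Up μ ν ∩ Ioi s) := by
  rcases le_or_gt (Fd μ s - Fd ν s) 0 with hs | hs
  · rw [ENNReal.ofReal_of_nonpos hs, add_zero]
    exact tail_aux μ ν hs
  · have hc : Continuous fun x => Fd μ x - Fd ν x := (continuous_Fd μ).sub (continuous_Fd ν)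
    set A : Set ℝ := {y | s ≤ y ∧ Fd μ y - Fd ν y ≤ 0} with hA
    have hAc : IsClosed A := isClosed_Ici.inter (isClosed_le hc continuous_const)
    rcases A.eq_empty_or_nonempty with hAe | hAn
    · have h1 : Up μ ν ∩ Ioi s = Ioi s := by
        apply inter_eq_right.2
        intro y hy
        by_contra hcon
        have : y ∈ A := ⟨le_of_lt hy, not_lt.1 hcon⟩
        rw [hAe] at this
        exact this
      rw [h1]
      have h2 : μ.real (Ioi s) + (Fd μ s - Fd ν s) ≤ ν.real (Ioi s) := by
        rw [real_Ioi, real_Ioi]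
        linarith
      have h3 : μ (Ioi s) = ENNReal.ofReal (μ.real (Ioi s)) := by
        rw [Measure.real, ENNReal.ofReal_toReal (measure_ne_top _ _)]
      have h4 : ν (Ioi s) = ENNReal.ofReal (ν.real (Ioi s)) := by
        rw [Measure.real, ENNReal.ofReal_toReal (measure_ne_top _ _)]
      rw [h3, h4, ← ENNReal.ofReal_add measureReal_nonneg hs.le]
      exact ENNReal.ofReal_le_ofReal h2
    · have hbb : BddBelow A := ⟨s, fun y hy => hy.1⟩
      set b := sInf A with hb
      have hbA : b ∈ A := hAc.csInf_mem hAn hbb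
      have hsb : s < b := by
        rcases hbA.1.eq_or_lt with h | h
        · exfalso
          have := hbA.2
          rw [← h] at this
          linarith
        · exact h
      have hin : Ioo s b ⊆ Up μ ν := by
        intro y hy
        by_contra hcon
        have : y ∈ A := ⟨hy.1.le, not_lt.1 hcon⟩
        have := csInf_le hbb this
        exact absurd hy.2 (not_lt.2 this)
      have hb0 : Fd μ b - Fd ν b = 0 := le_antisymm hbA.2 (nonneg_right μ ν hsb hin)
      have hbU : b ∉ Up μ ν := by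
        intro h
        have : 0 < Fd μ b - Fd ν b := h
        linarith
      have hdec : Up μ ν ∩ Ioi s = Ioo s b ∪ (Up μ ν ∩ Ioi b) := by
        ext y
        constructor
        · rintro ⟨h1, h2⟩
          rcases lt_trichotomy y b with h | h | h
          · exact Or.inl ⟨h2, h⟩
          · exact absurd (h ▸ h1) hbU
          · exact Or.inr ⟨h1, h⟩
        · rintro (h | h)
          · exact ⟨hin h, h.1⟩
          · exact ⟨h.1, hsb.trans h.2⟩
      have hdisj : Disjoint (Ioo s b) (Up μ ν ∩ Ioi b) := by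
        rw [Set.disjoint_left]
        intro y h1 h2
        exact absurd h1.2 (not_lt.2 (le_of_lt h2.2))
      have hmeas : MeasurableSet (Up μ ν ∩ Ioi b) :=
        (isOpen_Up μ ν).measurableSet.inter measurableSet_Ioi
      rw [hdec, measure_union hdisj hmeas, measure_union hdisj hmeas]
      have h1 := tail_aux μ ν (s := b) hb0.le
      have h2 : μ (Ioo s b) + ENNReal.ofReal (Fd μ s - Fd ν s) = ν (Ioo s b) := by
        have h3 : μ (Ioo s b) = ENNReal.ofReal (μ.real (Ioo s b)) := by
          rw [Measure.real, ENNReal.ofReal_toReal (measure_ne_top _ _)]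
        have h4 : ν (Ioo s b) = ENNReal.ofReal (ν.real (Ioo s b)) := by
          rw [Measure.real, ENNReal.ofReal_toReal (measure_ne_top _ _)]
        rw [h3, h4, ← ENNReal.ofReal_add measureReal_nonneg hs.le, real_Ioo μ hsb.le,
          real_Ioo ν hsb.le]
        congr 1
        linarith
      rw [← h2, add_assoc, add_assoc, add_comm (μ (Up μ ν ∩ Ioi b))]
      gcongr

/-- The complementary inequality. -/
lemma tail_compl_le (s : ℝ) : ν ((Up μ ν)ᶜ ∩ Ioi s) ≤ μ ((Up μ ν)ᶜ ∩ Ioi s) := by
  have h := tail_le μ ν s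
  have hmU : MeasurableSet (Up μ ν) := (isOpen_Up μ ν).measurableSet
  have hdec : ∀ κ : Measure ℝ, κ (Ioi s) = κ (Up μ ν ∩ Ioi s) + κ ((Up μ ν)ᶜ ∩ Ioi s) := by
    intro κ
    rw [← measure_inter_add_sdiff (Ioi s) hmU, inter_comm, sdiff_eq, inter_comm (Ioi s) (Up μ ν)ᶜ]
  have h1 : ν (Ioi s) ≤ μ (Ioi s) + ENNReal.ofReal (Fd μ s - Fd ν s) := by
    have h3 : μ (Ioi s) = ENNReal.ofReal (μ.real (Ioi s)) := by
      rw [Measure.real, ENNReal.ofReal_toReal (measure_ne_top _ _)]
    have h4 : ν (Ioi s) = ENNReal.ofReal (ν.real (Ioi s)) := by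
      rw [Measure.real, ENNReal.ofReal_toReal (measure_ne_top _ _)]
    rw [h3, h4, real_Ioi, real_Ioi]
    refine le_trans ?_ ENNReal.ofReal_add_le
    apply ENNReal.ofReal_le_ofReal
    linarith
  rw [hdec ν, hdec μ] at h1
  have h2 : μ (Up μ ν ∩ Ioi s) + ENNReal.ofReal (Fd μ s - Fd ν s) + ν ((Up μ ν)ᶜ ∩ Ioi s)
      ≤ μ (Up μ ν ∩ Ioi s) + ENNReal.ofReal (Fd μ s - Fd ν s) + μ ((Up μ ν)ᶜ ∩ Ioi s) := by
    calc _ ≤ ν (Up μ ν ∩ Ioi s) + ν ((Up μ ν)ᶜ ∩ Ioi s) := by gcongr
      _ ≤ _ := h1
      _ = _ := by ring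
  exact (ENNReal.add_le_add_iff_left (ENNReal.add_ne_top.2
    ⟨measure_ne_top _ _, ENNReal.ofReal_ne_top⟩)).1 h2

end

end Pool.Agent.R444.PB
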