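import Pool.Agent.R444.PB.Basic

/-!
# Uniqueness of the solution with a given moment; scaling
-/

set_option autoImplicit false

open MeasureTheory Set Filter Topology

namespace Pool.Agent.R444.PB

section

variable {w : ℝ} {ψ : ℕ → ℝ} {μ ν : Measure ℝ}

lemma Fd_nonpos (h : IsSolution w ψ μ) {x : ℝ} (hx : x ≤ 0) : Fd μ x = 0 := by
  have : μ (Iic x) = 0 := measure_mono_null (Iic_subset_Iic.2 hx) h.pos
  rw [Fd, Measure.real, this]
  rfl

lemma Fd_psi_zero (h : IsSolution w ψ μ) : Fd (psiBiased ψ μ) 0 = 0 := by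
  have : psiBiased ψ μ (Iic 0) = 0 := psiBiased_ac h.pos
  rw [Fd, Measure.real, this]
  rfl

/-- `κ(U) ≥ λ(U)` for `U = {F > G}`. -/
lemma psi_Up (hμ : IsSolution w ψ μ) (hν : IsSolution w ψ ν) (hw : 0 < w) (hψ : ∀ k, 0 ≤ ψ k)
    (hψ1 : HasSum ψ 1) : psiBiased ψ ν (Up μ ν) ≤ psiBiased ψ μ (Up μ ν) := by
  haveI := hμ.prob
  haveI := hν.prob
  haveI := hμ.psiBiased_prob hψ hψ1
  haveI := hν.psiBiased_prob hψ hψ1
  haveI : NullSingletonClass μ := ⟨hμ.singleton hw hψ hψ1⟩
  haveI : NullSingletonClass ν := ⟨hν.singleton hw hψ hψ1⟩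
  haveI : NullSingletonClass (psiBiased ψ μ) :=
    ⟨fun x => psiBiased_ac (hμ.singleton hw hψ hψ1 x)⟩
  haveI : NullSingletonClass (psiBiased ψ ν) :=
    ⟨fun x => psiBiased_ac (hν.singleton hw hψ hψ1 x)⟩
  set κ := psiBiased ψ μ with hκ
  set l := psiBiased ψ ν with hl
  have hpow : ∀ x : ℝ, 0 < x → 0 < x ^ (-w) := fun x hx => Real.rpow_pos_of_pos hx _
  have hanti : ∀ s t : ℝ, 0 < s → s < t → 0 < s ^ (-w) - t ^ (-w) := fun s t hs hst => by
    have := Real.rpow_lt_rpow_of_neg hs hst (by linarith : -w < 0)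
    linarith
  -- right end points
  have hright : ∀ a b, 0 ≤ a → a < b → Ioo a b ⊆ Up μ ν → Fd μ b - Fd ν b = 0 →
      Fd l b ≤ Fd κ b := by
    intro a b ha hab hsub hb
    have hb0 : 0 < b := lt_of_le_of_lt ha hab
    have hcl : b ∈ closure (Ioo a b) := by
      rw [closure_Ioo hab.ne]
      exact ⟨hab.le, le_refl b⟩
    have hsub' : closure (Ioo a b) ⊆ {x | Fd l x ≤ Fd κ b} := by
      apply closure_minimal _ (isClosed_le (continuous_Fd l) continuous_const)
      intro x hx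
      have hx0 : 0 < x := lt_of_le_of_lt ha hx.1
      have hD : 0 < Fd μ x - Fd ν x := hsub hx
      have h1 := (hμ.sandwich hw hψ hψ1 hx0 hx.2).2
      have h2 := (hν.sandwich hw hψ hψ1 hx0 hx.2).1
      have hc := hanti x b hx0 hx.2
      have h3 : 0 < (x ^ (-w) - b ^ (-w)) * (Fd κ b - Fd l x) := by
        have h4 := mul_pos (hpow x hx0) hD
        have h5 : b ^ (-w) * Fd μ b = b ^ (-w) * Fd ν b := by
          rw [show Fd μ b = Fd ν b by linarith]
        rw [mul_sub]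
        linarith
      have h6 := (mul_pos_iff_of_pos_left hc).1 h3
      show Fd l x ≤ Fd κ b
      linarith
    exact hsub' hcl
  -- left end points
  have hleft : ∀ a b, 0 ≤ a → a < b → Ioo a b ⊆ Up μ ν → Fd μ a - Fd ν a = 0 →
      Fd κ a ≤ Fd l a := by
    intro a b ha hab hsub hb
    rcases ha.eq_or_lt with h0 | h0
    · rw [← h0, hκ, hl, Fd_psi_zero hμ, Fd_psi_zero hν]
    have hcl : a ∈ closure (Ioo a b) := by
      rw [closure_Ioo hab.ne]
      exact ⟨le_refl a, hab.le⟩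
    have hsub' : closure (Ioo a b) ⊆ {x | Fd κ a ≤ Fd l x} := by
      apply closure_minimal _ (isClosed_le continuous_const (continuous_Fd l))
      intro x hx
      have hx0 : 0 < x := lt_trans h0 hx.1
      have hD : 0 < Fd μ x - Fd ν x := hsub hx
      have h1 := (hμ.sandwich hw hψ hψ1 h0 hx.1).1
      have h2 := (hν.sandwich hw hψ hψ1 h0 hx.1).2
      have hc := hanti a x h0 hx.1
      have h3 : 0 < (a ^ (-w) - x ^ (-w)) * (Fd l x - Fd κ a) := by
        have h4 := mul_pos (hpow x hx0) hD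
        have h5 : a ^ (-w) * Fd μ a = a ^ (-w) * Fd ν a := by
          rw [show Fd μ a = Fd ν a by linarith]
        rw [mul_sub]
        linarith
      have h6 := (mul_pos_iff_of_pos_left hc).1 h3
      show Fd κ a ≤ Fd l x
      linarith
    exact hsub' hcl
  have hU0 : Up μ ν ⊆ Ioi 0 := by
    intro x hx
    by_contra hcon
    have hx0 : x ≤ 0 := not_lt.1 hcon
    have : 0 < Fd μ x - Fd ν x := hx
    rw [Fd_nonpos hμ hx0, Fd_nonpos hν hx0] at this
    linarith
  apply comp_le (isOpen_Up μ ν) hU0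
  · intro a b ha hab hsub haU hbU
    have ha0 : Fd μ a - Fd ν a = 0 :=
      le_antisymm (not_lt.1 fun h => haU h) (nonneg_left μ ν hab hsub)
    have hb0 : Fd μ b - Fd ν b = 0 :=
      le_antisymm (not_lt.1 fun h => hbU h) (nonneg_right μ ν hab hsub)
    apply le_of_real_le
    rw [real_Ioo l hab.le, real_Ioo κ hab.le]
    have h1 := hright a b ha hab hsub hb0
    have h2 := hleft a b ha hab hsub ha0
    linarith
  · intro a ha hsub haU
    have hsub' : Ioo a (a + 1) ⊆ Up μ ν := fun x hx => hsub hx.1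
    have hab : a < a + 1 := by linarith
    have ha0 : Fd μ a - Fd ν a = 0 :=
      le_antisymm (not_lt.1 fun h => haU h) (nonneg_left μ ν hab hsub')
    apply le_of_real_le
    rw [real_Ioi, real_Ioi]
    have h2 := hleft a (a + 1) ha hab hsub' ha0
    linarith

/-- The moment over a set. -/
noncomputable def Wm (μ : Measure ℝ) (k : ℕ) (U : Set ℝ) : ENNReal :=
  ∫⁻ x in U, ENNReal.ofReal (x ^ k) ∂μ

lemma Wm_eq (h : IsSolution w ψ μ) {k : ℕ} (hk : 0 < k) {U : Set ℝ} (hU : MeasurableSet U) :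
    Wm μ k U = ENNReal.ofReal k * ∫⁻ t in Ioi (0 : ℝ), μ (U ∩ Ioi t)
      * ENNReal.ofReal (t ^ ((k : ℝ) - 1)) := by
  have h1 := lintegral_rpow_eq_lintegral_meas_lt_mul (μ.restrict U) (f := fun x : ℝ => x)
    ((ae_restrict_of_ae h.ae_pos).mono fun x hx => le_of_lt hx) measurable_id.aemeasurable
    (p := (k : ℝ)) (by exact_mod_cast hk)
  simp only [Real.rpow_natCast] at h1
  rw [Wm, h1]
  congr 1
  refine lintegral_congr fun t => ?_
  have : {a : ℝ | t < a} = Ioi t := rfl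
  rw [this, Measure.restrict_apply measurableSet_Ioi, inter_comm]

lemma powerBiased_apply (k : ℕ) {U : Set ℝ} (hU : MeasurableSet U) :
    powerBiased μ k U = (mom μ k)⁻¹ * Wm μ k U := by
  rw [powerBiased, Measure.smul_apply, withDensity_apply _ hU, smul_eq_mul, Wm]

lemma Wm_Up_le (hμ : IsSolution w ψ μ) (hν : IsSolution w ψ ν) (hw : 0 < w) (hψ : ∀ k, 0 ≤ ψ k)
    (hψ1 : HasSum ψ 1) {k : ℕ} (hk : 0 < k) :
    Wm μ k (Up μ ν) + ENNReal.ofReal k * ∫⁻ t in Ioi (0 : ℝ), ENNReal.ofReal (Fd μ t - Fd ν t)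
      * ENNReal.ofReal (t ^ ((k : ℝ) - 1)) ≤ Wm ν k (Up μ ν) ∧
    Wm ν k (Up μ ν)ᶜ ≤ Wm μ k (Up μ ν)ᶜ := by
  haveI := hμ.prob
  haveI := hν.prob
  haveI : NullSingletonClass μ := ⟨hμ.singleton hw hψ hψ1⟩
  haveI : NullSingletonClass ν := ⟨hν.singleton hw hψ hψ1⟩
  have hU : MeasurableSet (Up μ ν) := (isOpen_Up μ ν).measurableSet
  have hmD : Measurable fun t => Fd μ t - Fd ν t :=
    ((continuous_Fd μ).sub (continuous_Fd ν)).measurable
  constructor
  · rw [Wm_eq hμ hk hU, Wm_eq hν hk hU, ← mul_add, ← lintegral_add_right]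
    · gcongr
      rw [← add_mul]
      gcongr
      exact tail_le μ ν _
    · fun_prop
  · rw [Wm_eq hμ hk hU.compl, Wm_eq hν hk hU.compl]
    exact mul_le_mul' le_rfl (lintegral_mono fun t => mul_le_mul' (tail_compl_le μ ν t) le_rfl)

lemma powerBiased_Up (hμ : IsSolution w ψ μ) (hν : IsSolution w ψ ν) (hw : 0 < w)
    (hψ : ∀ k, 0 ≤ ψ k) (hψ0 : ψ 0 = 0) (hψ1 : HasSum ψ 1) {k : ℕ} (hk : 0 < ψ k) :
    powerBiased μ k (Up μ ν) ≤ powerBiased ν k (Up μ ν) := by
  haveI := hμ.prob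
  haveI := hν.prob
  haveI : NullSingletonClass μ := ⟨hμ.singleton hw hψ hψ1⟩
  haveI : NullSingletonClass ν := ⟨hν.singleton hw hψ hψ1⟩
  have hU : MeasurableSet (Up μ ν) := (isOpen_Up μ ν).measurableSet
  have hk0 : 0 < k := by
    rcases Nat.eq_zero_or_pos k with h | h
    · rw [h, hψ0] at hk
      exact absurd hk (lt_irrefl _)
    · exact h
  obtain ⟨h1, h2⟩ := Wm_Up_le hμ hν hw hψ hψ1 hk0
  haveI := hμ.powerBiased_prob hk
  haveI := hν.powerBiased_prob hk
  rcases le_total (mom ν k) (mom μ k) with h | h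
  · rw [powerBiased_apply k hU, powerBiased_apply k hU]
    exact mul_le_mul' (ENNReal.inv_le_inv.2 h) (le_self_add.trans h1)
  · have h3 : powerBiased ν k (Up μ ν)ᶜ ≤ powerBiased μ k (Up μ ν)ᶜ := by
      rw [powerBiased_apply k hU.compl, powerBiased_apply k hU.compl]
      exact mul_le_mul' (ENNReal.inv_le_inv.2 h) h2
    have h4 : ∀ P : Measure ℝ, IsProbabilityMeasure P → P (Up μ ν) = 1 - P (Up μ ν)ᶜ := by
      intro P hP
      rw [← prob_compl_eq_one_sub hU.compl, compl_compl]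
    rw [h4 _ inferInstance, h4 (powerBiased ν k) inferInstance]
    exact tsub_le_tsub_left h3 1

lemma Up_empty (hμ : IsSolution w ψ μ) (hν : IsSolution w ψ ν) (hw : 0 < w)
    (hψ : ∀ k, 0 ≤ ψ k) (hψ0 : ψ 0 = 0) (hψ1 : HasSum ψ 1) {k : ℕ} (hk : 0 < ψ k)
    (hmom : mom μ k = mom ν k) : Up μ ν = ∅ := by
  haveI := hμ.prob
  haveI := hν.prob
  haveI : NullSingletonClass μ := ⟨hμ.singleton hw hψ hψ1⟩
  haveI : NullSingletonClass ν := ⟨hν.singleton hw hψ hψ1⟩
  haveI := hμ.psiBiased_prob hψ hψ1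
  have hU : MeasurableSet (Up μ ν) := (isOpen_Up μ ν).measurableSet
  have hk0 : 0 < k := by
    rcases Nat.eq_zero_or_pos k with h | h
    · rw [h, hψ0] at hk
      exact absurd hk (lt_irrefl _)
    · exact h
  have hterm : ∀ j, ENNReal.ofReal (ψ j) * powerBiased μ j (Up μ ν)
      ≤ ENNReal.ofReal (ψ j) * powerBiased ν j (Up μ ν) := by
    intro j
    rcases (hψ j).eq_or_lt with h | h
    · rw [← h]
      simp
    · exact mul_le_mul' le_rfl (powerBiased_Up hμ hν hw hψ hψ0 hψ1 h)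
  have hge : ENNReal.ofReal (ψ k) * powerBiased ν k (Up μ ν)
      ≤ ENNReal.ofReal (ψ k) * powerBiased μ k (Up μ ν) := by
    by_contra hcon
    rw [not_le] at hcon
    have h1 := psi_Up hμ hν hw hψ hψ1
    have hfin : ∑' j, ENNReal.ofReal (ψ j) * powerBiased μ j (Up μ ν) ≠ ⊤ := by
      rw [← psiBiased_apply (ψ := ψ) _ hU]
      exact measure_ne_top _ _
    have h2 := ENNReal.tsum_lt_tsum hfin hterm hcon
    rw [psiBiased_apply _ hU, psiBiased_apply _ hU] at h1
    exact absurd h1 (not_le.2 h2)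
  have hpk : ENNReal.ofReal (ψ k) ≠ 0 := by
    rw [Ne, ENNReal.ofReal_eq_zero]
    linarith
  rw [ENNReal.mul_le_mul_iff_right hpk ENNReal.ofReal_ne_top, powerBiased_apply k hU,
    powerBiased_apply k hU, hmom, ENNReal.mul_le_mul_iff_right
      (ENNReal.inv_ne_zero.2 (hν.moment k hk).ne) (ENNReal.inv_ne_top.2 (hν.mom_pos k))] at hge
  have hE := (Wm_Up_le hμ hν hw hψ hψ1 hk0).1
  have hWfin : Wm μ k (Up μ ν) ≠ ⊤ := by
    refine ne_top_of_le_ne_top (hμ.moment k hk).ne ?_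
    exact setLIntegral_le_lintegral _ _
  have h0 : ENNReal.ofReal k * ∫⁻ t in Ioi (0 : ℝ), ENNReal.ofReal (Fd μ t - Fd ν t)
      * ENNReal.ofReal (t ^ ((k : ℝ) - 1)) = 0 := by
    have h1 := hE.trans hge
    have h2 : Wm μ k (Up μ ν) + ENNReal.ofReal k * ∫⁻ t in Ioi (0 : ℝ),
        ENNReal.ofReal (Fd μ t - Fd ν t) * ENNReal.ofReal (t ^ ((k : ℝ) - 1))
        ≤ Wm μ k (Up μ ν) + 0 := by rw [add_zero]; exact h1
    exact le_antisymm ((ENNReal.add_le_add_iff_left hWfin).1 h2) zero_le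
  have hmD : Measurable fun t => Fd μ t - Fd ν t :=
    ((continuous_Fd μ).sub (continuous_Fd ν)).measurable
  have h1 : ∫⁻ t in Ioi (0 : ℝ), ENNReal.ofReal (Fd μ t - Fd ν t)
      * ENNReal.ofReal (t ^ ((k : ℝ) - 1)) = 0 := by
    rcases mul_eq_zero.1 h0 with h | h
    · rw [ENNReal.ofReal_eq_zero] at h
      have : (0 : ℝ) < k := by exact_mod_cast hk0
      linarith
    · exact h
  rw [lintegral_eq_zero_iff (by fun_prop)] at h1
  by_contra hne
  have hpos : 0 < volume (Up μ ν) :=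
    (isOpen_Up μ ν).measure_pos volume (nonempty_iff_ne_empty.2 hne)
  have hnull : volume (Up μ ν) = 0 := by
    have h2 : ∀ᵐ t : ℝ, t ∈ Ioi (0 : ℝ) → ENNReal.ofReal (Fd μ t - Fd ν t)
        * ENNReal.ofReal (t ^ ((k : ℝ) - 1)) = 0 := (ae_restrict_iff' measurableSet_Ioi).1 h1
    rw [ae_iff] at h2
    refine measure_mono_null ?_ h2
    intro t ht
    have hD : 0 < Fd μ t - Fd ν t := ht
    have ht0 : 0 < t := by
      by_contra hcon
      rw [Fd_nonpos hμ (not_lt.1 hcon), Fd_nonpos hν (not_lt.1 hcon)] at hD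
      linarith
    intro hcon
    rcases mul_eq_zero.1 (hcon ht0) with h3 | h3
    · rw [ENNReal.ofReal_eq_zero] at h3
      linarith
    · rw [ENNReal.ofReal_eq_zero] at h3
      have : 0 < t ^ ((k : ℝ) - 1) := Real.rpow_pos_of_pos ht0 _
      linarith
  exact hpos.ne' hnull

/-- Two solutions with one common moment are equal. -/
theorem unique_of_mom (hμ : IsSolution w ψ μ) (hν : IsSolution w ψ ν) (hw : 0 < w)
    (hψ : ∀ k, 0 ≤ ψ k) (hψ0 : ψ 0 = 0) (hψ1 : HasSum ψ 1) {k : ℕ} (hk : 0 < ψ k)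
    (hmom : mom μ k = mom ν k) : μ = ν := by
  haveI := hμ.prob
  haveI := hν.prob
  have h1 := Up_empty hμ hν hw hψ hψ0 hψ1 hk hmom
  have h2 := Up_empty hν hμ hw hψ hψ0 hψ1 hk hmom.symm
  apply Measure.ext_of_Iic
  intro x
  have h3 : Fd μ x = Fd ν x := by
    apply le_antisymm
    · by_contra hcon
      have : x ∈ Up μ ν := by
        show 0 < Fd μ x - Fd ν x
        linarith
      rw [h1] at this
      exact this
    · by_contra hcon
      have : x ∈ Up ν μ := by
        show 0 < Fd ν x - Fd μ x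
        linarith
      rw [h2] at this
      exact this
  exact (ENNReal.toReal_eq_toReal_iff' (measure_ne_top _ _) (measure_ne_top _ _)).1 h3

/-! ### Scaling -/

lemma mom_scale {c : ℝ} (hc : 0 < c) (k : ℕ) :
    mom (μ.map (fun x => c * x)) k = ENNReal.ofReal (c ^ k) * mom μ k := by
  rw [mom, lintegral_map (by fun_prop) (by fun_prop), mom, ← lintegral_const_mul _ (by fun_prop)]
  refine lintegral_congr fun x => ?_
  rw [mul_pow, ENNReal.ofReal_mul (by positivity)]

lemma Wm_scale {c : ℝ} (hc : 0 < c) (k : ℕ) {A : Set ℝ} (hA : MeasurableSet A) :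
    Wm (μ.map (fun x => c * x)) k A = ENNReal.ofReal (c ^ k) * Wm μ k ((fun x => c * x) ⁻¹' A) := by
  rw [Wm, setLIntegral_map hA (by fun_prop) (by fun_prop), Wm, ← lintegral_const_mul _ (by fun_prop)]
  refine lintegral_congr fun x => ?_
  rw [mul_pow, ENNReal.ofReal_mul (by positivity)]

lemma powerBiased_scale {c : ℝ} (hc : 0 < c) (k : ℕ) :
    powerBiased (μ.map (fun x => c * x)) k = (powerBiased μ k).map (fun x => c * x) := by
  ext A hA
  rw [Measure.map_apply (by fun_prop) hA, powerBiased_apply k hA,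
    powerBiased_apply k ((by fun_prop : Measurable fun x : ℝ => c * x) hA), mom_scale hc,
    Wm_scale hc k hA]
  have h0 : ENNReal.ofReal (c ^ k) ≠ 0 := by
    rw [Ne, ENNReal.ofReal_eq_zero]
    have : 0 < c ^ k := by positivity
    linarith
  rw [ENNReal.mul_inv (Or.inl h0) (Or.inl ENNReal.ofReal_ne_top)]
  calc (ENNReal.ofReal (c ^ k))⁻¹ * (mom μ k)⁻¹ * (ENNReal.ofReal (c ^ k) * Wm μ k _)
      = ((ENNReal.ofReal (c ^ k))⁻¹ * ENNReal.ofReal (c ^ k)) * ((mom μ k)⁻¹ * Wm μ k _) := by ring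
    _ = _ := by rw [ENNReal.inv_mul_cancel h0 ENNReal.ofReal_ne_top, one_mul]

lemma psiBiased_scale {c : ℝ} (hc : 0 < c) :
    psiBiased ψ (μ.map (fun x => c * x)) = (psiBiased ψ μ).map (fun x => c * x) := by
  ext A hA
  rw [Measure.map_apply (by fun_prop) hA, psiBiased_apply _ hA,
    psiBiased_apply _ ((by fun_prop : Measurable fun x : ℝ => c * x) hA)]
  refine tsum_congr fun k => ?_
  rw [powerBiased_scale hc, Measure.map_apply (by fun_prop) hA]

lemma IsSolution.scale (h : IsSolution w ψ μ) (hw : 0 < w) (hψ : ∀ k, 0 ≤ ψ k)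
    (hψ1 : HasSum ψ 1) {c : ℝ} (hc : 0 < c) : IsSolution w ψ (μ.map (fun x => c * x)) := by
  haveI := h.prob
  haveI := h.psiBiased_prob hψ hψ1
  haveI := betaLaw_prob hw
  refine ⟨Measure.isProbabilityMeasure_map (by fun_prop), ?_, ?_, ?_⟩
  · rw [Measure.map_apply (by fun_prop) measurableSet_Iic]
    have : (fun x => c * x) ⁻¹' Iic 0 = Iic 0 := by
      ext x
      simp only [mem_preimage, mem_Iic]
      constructor
      · intro h
        by_contra hcon
        have := mul_pos hc (not_le.1 hcon)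
        linarith
      · intro h
        exact mul_nonpos_of_nonneg_of_nonpos hc.le h
    rw [this]
    exact h.pos
  · intro k hk
    rw [mom_scale hc]
    exact ENNReal.mul_lt_top ENNReal.ofReal_lt_top (h.moment k hk)
  · rw [psiBiased_scale hc]
    have h1 : (betaLaw w).prod ((psiBiased ψ μ).map (fun x => c * x))
        = ((betaLaw w).prod (psiBiased ψ μ)).map (Prod.map id (fun x => c * x)) := by
      rw [← Measure.map_prod_map _ _ measurable_id (by fun_prop), Measure.map_id]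
    rw [h1, Measure.map_map (by fun_prop) (by fun_prop)]
    conv_lhs => rw [h.fixed]
    rw [Measure.map_map (by fun_prop) (by fun_prop)]
    congr 1
    funext z
    simp only [Function.comp, Prod.map, id]
    ring

/-- **Uniqueness up to scaling.** -/
theorem unique_scale (hμ : IsSolution w ψ μ) (hν : IsSolution w ψ ν) (hw : 0 < w)
    (hψ : ∀ k, 0 ≤ ψ k) (hψ0 : ψ 0 = 0) (hψ1 : HasSum ψ 1) :
    ∃ c : ℝ, 0 < c ∧ ν = μ.map (fun x => c * x) := by
  obtain ⟨k, hk⟩ : ∃ k, 0 < ψ k := by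
    by_contra hcon
    push Not at hcon
    have : ψ = fun _ => 0 := funext fun k => le_antisymm (hcon k) (hψ k)
    rw [this] at hψ1
    have := hψ1.unique hasSum_zero
    norm_num at this
  have hk0 : 0 < k := by
    rcases Nat.eq_zero_or_pos k with h | h
    · rw [h, hψ0] at hk
      exact absurd hk (lt_irrefl _)
    · exact h
  have hkr : (k : ℝ) ≠ 0 := by exact_mod_cast hk0.ne'
  set m := (mom μ k).toReal with hm
  set n := (mom ν k).toReal with hn
  have hm0 : 0 < m := ENNReal.toReal_pos (hμ.mom_pos k) (hμ.moment k hk).ne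
  have hn0 : 0 < n := ENNReal.toReal_pos (hν.mom_pos k) (hν.moment k hk).ne
  set c := (n / m) ^ (1 / (k : ℝ)) with hc
  have hc0 : 0 < c := Real.rpow_pos_of_pos (div_pos hn0 hm0) _
  have hck : c ^ k = n / m := by
    rw [hc, ← Real.rpow_natCast, ← Real.rpow_mul (div_pos hn0 hm0).le, one_div,
      inv_mul_cancel₀ hkr, Real.rpow_one]
  refine ⟨c, hc0, ?_⟩
  symm
  apply unique_of_mom (hμ.scale hw hψ hψ1 hc0) hν hw hψ hψ0 hψ1 hk
  rw [mom_scale hc0, hck]
  have h1 : mom μ k = ENNReal.ofReal m := (ENNReal.ofReal_toReal (hμ.moment k hk).ne).symm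
  have h2 : mom ν k = ENNReal.ofReal n := (ENNReal.ofReal_toReal (hν.moment k hk).ne).symm
  rw [h1, h2, ← ENNReal.ofReal_mul (by positivity)]
  congr 1
  field_simp

end

end Pool.Agent.R444.PB
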